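import Mathlib

open NormedSpace Filter Topology

namespace Pool.Agent.Results.MP_066924_al.LocDerLie

/-- A derivation of a not necessarily associative algebra. -/
def IsDer {F A : Type} [Field F] [NonUnitalNonAssocRing A] [Module F A] (D : A →ₗ[F] A) : Prop :=
  ∀ x y, D (x * y) = D x * y + x * D y

/-- A local derivation: at each point it agrees with some derivation. -/
def IsLocDer {F A : Type} [Field F] [NonUnitalNonAssocRing A] [Module F A] (Δ : A →ₗ[F] A) :
    Prop :=
  ∀ x, ∃ D : A →ₗ[F] A, IsDer D ∧ Δ x = D x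

section aux
variable {F E : Type} [RCLike F] [NormedAddCommGroup E] [NormedSpace F E] [FiniteDimensional F E]

lemma exp_mul_neg (D : E →L[F] E) (t : F) : exp (t • (-D)) * exp (t • D) = 1 := by
  haveI : CompleteSpace E := FiniteDimensional.complete F E
  letI : NormedAlgebra ℚ (E →L[F] E) := NormedAlgebra.restrictScalars ℚ F _
  rw [← exp_add_of_commute]
  · simp
  · exact ((Commute.refl D).neg_left.smul_left t).smul_right t

lemma exp_mul_neg' (D : E →L[F] E) (t : F) : exp (t • D) * exp (t • (-D)) = 1 := by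
  simpa using exp_mul_neg (-D) t

lemma exp_aut (m : E →L[F] E →L[F] E) (D : E →L[F] E)
    (hD : ∀ x y, D (m x y) = m (D x) y + m x (D y)) (t : F) (a b : E) :
    exp (t • D) (m a b) = m (exp (t • D) a) (exp (t • D) b) := by
  haveI : CompleteSpace E := FiniteDimensional.complete F E
  let φ : F → E := fun t => exp (t • (-D)) (m (exp (t • D) a) (exp (t • D) b))
  have hφ : ∀ t, HasDerivAt φ 0 t := by
    intro t
    have h1 := hasDerivAt_exp_smul_const (𝕂 := F) (-D) t
    have h2 := hasDerivAt_exp_smul_const' (𝕂 := F) D t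
    have ha := h2.clm_apply (hasDerivAt_const t a)
    have hb := h2.clm_apply (hasDerivAt_const t b)
    have hma := (m.hasFDerivAt.comp_hasDerivAt t ha).clm_apply hb
    have := h1.clm_apply hma
    refine HasDerivAt.congr_deriv this ?_
    simp only [Function.comp, ContinuousLinearMap.mul_apply, map_zero, add_zero,
      ContinuousLinearMap.neg_apply, hD, map_neg, neg_add_cancel]
  have hc : φ t = φ 0 :=
    is_const_of_deriv_eq_zero (fun t => (hφ t).differentiableAt) (fun t => (hφ t).deriv) t 0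
  have h0 : φ 0 = m a b := by simp [φ]
  rw [← h0, ← hc]
  change (exp (t • D) * exp (t • (-D))) _ = _
  rw [exp_mul_neg']; rfl

lemma key (m : E →L[F] E →L[F] E) (V : Submodule F E) (x : E)
    (hV : ∀ D : E →L[F] E, (∀ x y, D (m x y) = m (D x) y + m x (D y)) → D x ∈ V)
    (D Δ : E →L[F] E) (hD : ∀ x y, D (m x y) = m (D x) y + m x (D y))
    (hΔ : ∀ y, ∃ D' : E →L[F] E, (∀ x y, D' (m x y) = m (D' x) y + m x (D' y)) ∧ Δ y = D' y) :
    Δ (D x) - D (Δ x) ∈ V := by
  haveI : CompleteSpace E := FiniteDimensional.complete F E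
  let h : F → E := fun t => exp (t • (-D)) (Δ (exp (t • D) x))
  have hD' : ∀ x y, (-D) (m x y) = m ((-D) x) y + m x ((-D) y) := by
    intro x y; simp [hD]; abel
  have hmem : ∀ t, h t ∈ V := by
    intro t
    obtain ⟨D', h1, h2⟩ := hΔ (exp (t • D) x)
    have := hV (exp (t • (-D)) * D' * exp (t • D)) (by
      intro a b
      have ea : ∀ a, exp (t • (-D)) (exp (t • D) a) = a := fun a => by
        change (exp (t • (-D)) * exp (t • D)) a = a
        rw [exp_mul_neg]; rfl
      simp only [ContinuousLinearMap.mul_apply]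
      rw [exp_aut m D hD, h1, map_add, exp_aut m (-D) hD', exp_aut m (-D) hD', ea, ea])
    simpa [h, h2] using this
  have hd : HasDerivAt h (Δ (D x) - D (Δ x)) 0 := by
    have h1 := hasDerivAt_exp_smul_const (𝕂 := F) (-D) 0
    have h2 := hasDerivAt_exp_smul_const' (𝕂 := F) D 0
    have ha := h2.clm_apply (hasDerivAt_const 0 x)
    have hma := Δ.hasFDerivAt.comp_hasDerivAt 0 ha
    have := h1.clm_apply hma
    refine HasDerivAt.congr_deriv this ?_
    simp [sub_eq_neg_add]
  have hcl : IsClosed (V : Set E) := V.closed_of_finiteDimensional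
  refine hcl.mem_of_tendsto hd.tendsto_slope (Eventually.of_forall fun t => ?_)
  rw [slope_def_module]
  exact V.smul_mem _ (V.sub_mem (hmem t) (hmem 0))

end aux

theorem result (F : Type) [RCLike F] (A : Type) [NonUnitalNonAssocRing A] [Module F A]
    [IsScalarTower F A A] [SMulCommClass F A A] [FiniteDimensional F A]
    (Δ₁ Δ₂ : A →ₗ[F] A) (h₁ : IsLocDer Δ₁) (h₂ : IsLocDer Δ₂) :
    IsLocDer (Δ₁ ∘ₗ Δ₂ - Δ₂ ∘ₗ Δ₁) := by
  intro x
  let e := (Module.finBasis F A).equivFun
  letI : NormedAddCommGroup A := NormedAddCommGroup.induced A _ e e.injective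
  letI : NormedSpace F A := NormedSpace.induced F A _ e
  let m0 : A →ₗ[F] A →L[F] A :=
    (LinearMap.toContinuousLinearMap (𝕜 := F) (E := A) (F' := A)).toLinearMap ∘ₗ LinearMap.mul F A
  let m : A →L[F] A →L[F] A := LinearMap.toContinuousLinearMap m0
  have hm : ∀ a b, m a b = a * b := fun a b => rfl
  let V : Submodule F A :=
    { carrier := {v | ∃ D : A →ₗ[F] A, IsDer D ∧ v = D x}
      add_mem' := by
        rintro _ _ ⟨D1, h1, rfl⟩ ⟨D2, h2, rfl⟩
        refine ⟨D1 + D2, fun a b => ?_, rfl⟩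
        simp only [LinearMap.add_apply, h1 a b, h2 a b, add_mul, mul_add]; abel
      zero_mem' := ⟨0, fun a b => by simp, rfl⟩
      smul_mem' := by
        rintro c _ ⟨D1, h1, rfl⟩
        refine ⟨c • D1, fun a b => ?_, rfl⟩
        simp only [LinearMap.smul_apply, h1 a b, smul_add, smul_mul_assoc, mul_smul_comm] }
  have hV : ∀ D : A →L[F] A, (∀ x y, D (m x y) = m (D x) y + m x (D y)) → D x ∈ V :=
    fun D hD => ⟨D.toLinearMap, hD, rfl⟩
  have hloc : ∀ Δ : A →ₗ[F] A, IsLocDer Δ → ∀ y, ∃ D' : A →L[F] A,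
      (∀ x y, D' (m x y) = m (D' x) y + m x (D' y)) ∧
        LinearMap.toContinuousLinearMap Δ y = D' y := by
    intro Δ hΔ y
    obtain ⟨D, h1, h2⟩ := hΔ y
    exact ⟨LinearMap.toContinuousLinearMap D, h1, h2⟩
  obtain ⟨D₁, hD₁, e₁⟩ := h₁ x
  obtain ⟨D₂, hD₂, e₂⟩ := h₂ x
  have k1 : Δ₂ (D₁ x) - D₁ (Δ₂ x) ∈ V :=
    key m V x hV (LinearMap.toContinuousLinearMap D₁) _ hD₁ (hloc Δ₂ h₂)
  have k2 : Δ₁ (D₂ x) - D₂ (Δ₁ x) ∈ V :=
    key m V x hV (LinearMap.toContinuousLinearMap D₂) _ hD₂ (hloc Δ₁ h₁)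
  have k3 : D₂ (D₁ x) - D₁ (D₂ x) ∈ V := by
    refine ⟨D₂ ∘ₗ D₁ - D₁ ∘ₗ D₂, fun a b => ?_, rfl⟩
    simp only [LinearMap.sub_apply, LinearMap.comp_apply, hD₁ a b, hD₂ a b, map_add, hD₁ _ _,
      hD₂ _ _, sub_mul, mul_sub]
    abel
  have k4 := V.add_mem (V.sub_mem k2 k1) k3
  have : (Δ₁ ∘ₗ Δ₂ - Δ₂ ∘ₗ Δ₁) x ∈ V := by
    convert k4 using 1
    simp only [LinearMap.sub_apply, LinearMap.comp_apply, e₁, e₂]
    abel
  exact this

end Pool.Agent.Results.MP_066924_al.LocDerLie
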